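import Pool.Agent.X175.SubN.Defs
import Pool.Agent.W367.SN.NV

set_option autoImplicit false
open CategoryTheory

namespace Pool.Agent.X175.SubN
open Pool.Agent.W367.SN

variable {G : Type} [Group G]

/-- the chain step -/
theorem normal_step {K L : Subgroup G} (hle : K ≤ L) (h : (K.subgroupOf L).Normal)
    {z u : G} (hz : z ∈ K) (hu : u ∈ L) (hzu : z * u * z⁻¹ = u⁻¹) : u * u ∈ K := by
  have h1 := h.conj_mem ⟨z, hle hz⟩ (Subgroup.mem_subgroupOf.2 hz) ⟨u, hu⟩
  rw [Subgroup.mem_subgroupOf] at h1
  have h2 : u * z * u⁻¹ ∈ K := h1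
  have h3 : u * z * u⁻¹ * z⁻¹ ∈ K := K.mul_mem h2 (K.inv_mem hz)
  have h4 : z * u⁻¹ * z⁻¹ = u := by
    have := congrArg (·⁻¹) hzu
    simpa [mul_assoc] using this
  have h5 : u * z * u⁻¹ * z⁻¹ = u * (z * u⁻¹ * z⁻¹) := by group
  rw [h5, h4] at h3
  exact h3

theorem chain_mono {c : ℕ → Subgroup G} {n : ℕ}
    (hc : ∀ i < n, c i ≤ c (i + 1) ∧ ((c i).subgroupOf (c (i + 1))).Normal) :
    ∀ i, i ≤ n → c 0 ≤ c i := by
  intro i
  induction i with
  | zero => intro _; exact le_rfl
  | succ i ih => intro hi; exact (ih (by omega)).trans (hc i (by omega)).1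

/-- If `⟨x⟩` is subnormal in `K` and `z ∈ ⟨x⟩` inverts `w ∈ K`, then `w` has order a power of two. -/
theorem inverted {x : G} {K : Subgroup G} (hs : IsSubnormal (Subgroup.zpowers x) K) {z w : G}
    (hz : z ∈ Subgroup.zpowers x) (hw : w ∈ K) (hzw : z * w * z⁻¹ = w⁻¹) :
    ∃ n : ℕ, w ^ 2 ^ n = 1 := by
  obtain ⟨n, c, h0, hn, hc⟩ := hs
  have key : ∀ j, j ≤ n → w ^ 2 ^ j ∈ c (n - j) := by
    intro j
    induction j with
    | zero => intro _; simpa [hn] using hw
    | succ j ih =>
      intro hj
      have h1 := ih (by omega)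
      obtain ⟨i, hi⟩ : ∃ i, n - (j + 1) = i := ⟨_, rfl⟩
      have hi' : n - j = i + 1 := by omega
      rw [hi]
      rw [hi'] at h1
      have h2 : z ∈ c i := chain_mono hc i (by omega) (by rw [h0]; exact hz)
      have h3 := normal_step (hc i (by omega)).1 (hc i (by omega)).2 h2 h1 (by
        rw [← conj_pow, hzw, inv_pow])
      rwa [← pow_two, ← pow_mul, ← pow_succ] at h3
  have h1 := key n le_rfl
  rw [Nat.sub_self, h0] at h1
  obtain ⟨a, ha⟩ := h1
  obtain ⟨b, hb⟩ := hz
  have h2 : z * w ^ 2 ^ n * z⁻¹ = w ^ 2 ^ n := by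
    have h3 : Commute z (w ^ 2 ^ n) := by
      change x ^ a = _ at ha
      change x ^ b = _ at hb
      rw [← ha, ← hb]
      exact (Commute.refl x).zpow_zpow b a
    rw [h3.eq, mul_inv_cancel_right]
  have h3 : z * w ^ 2 ^ n * z⁻¹ = (w ^ 2 ^ n)⁻¹ := by
    rw [← conj_pow, hzw, inv_pow]
  refine ⟨n + 1, ?_⟩
  rw [pow_succ, pow_mul, pow_two]
  nth_rewrite 1 [← h2]
  rw [h3, inv_mul_cancel]

/-- elements normalizing `⟨x⟩` -/
theorem mem_SSet_of_conj {x g : G} (h : g * x * g⁻¹ ∈ Subgroup.zpowers x)
    (h' : g⁻¹ * x * g ∈ Subgroup.zpowers x) : g ∈ SSet x := by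
  refine ⟨1, fun i => if i = 0 then Subgroup.zpowers x else Subgroup.closure {x, g}, rfl, by simp,
    ?_⟩
  intro i hi
  obtain rfl : i = 0 := by omega
  have e1 : (fun i : ℕ => if i = 0 then Subgroup.zpowers x else
    Subgroup.closure {x, g}) (0 + 1) = Subgroup.closure {x, g} := by simp
  have e0 : (fun i : ℕ => if i = 0 then Subgroup.zpowers x else
    Subgroup.closure {x, g}) 0 = Subgroup.zpowers x := rfl
  rw [e1, e0]
  have hle : Subgroup.zpowers x ≤ Subgroup.closure {x, g} := by
    rw [Subgroup.zpowers_le]; exact Subgroup.subset_closure (by simp)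
  refine ⟨hle, ?_⟩
  rw [Subgroup.normal_subgroupOf_iff_le_normalizer hle, Subgroup.closure_le]
  rintro u (rfl | hu)
  · exact Subgroup.le_normalizer (Subgroup.mem_zpowers _)
  · rw [Set.mem_singleton_iff] at hu
    subst hu
    change u ∈ Subgroup.normalizer _
    rw [Subgroup.mem_normalizer_iff]
    intro v
    constructor
    · rintro ⟨a, ha⟩
      change x ^ a = v at ha
      rw [← ha, ← conj_zpow]
      exact Subgroup.zpow_mem _ h a
    · rintro ⟨a, ha⟩
      change x ^ a = _ at ha
      have : v = (u⁻¹ * x * u) ^ a := by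
        have h1 : (u⁻¹ * x * (u⁻¹)⁻¹) ^ a = u⁻¹ * x ^ a * (u⁻¹)⁻¹ := conj_zpow
        rw [inv_inv] at h1
        rw [h1, ha]; group
      rw [this]
      exact Subgroup.zpow_mem _ h' a

theorem mem_SSet_of_commute {x g : G} (h : Commute x g) : g ∈ SSet x := by
  apply mem_SSet_of_conj
  · rw [← h.eq, mul_inv_cancel_right]; exact Subgroup.mem_zpowers x
  · rw [mul_assoc, h.eq, inv_mul_cancel_left]; exact Subgroup.mem_zpowers x

/-- swapping elements -/
theorem mem_SSet_of_swap {x g : G} (h : Commute x (g * x * g⁻¹)) (h2 : Commute x (g * g)) :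
    g ∈ SSet x := by
  set y : G := g * x * g⁻¹ with hy
  have hgy : g * y * g⁻¹ = x := by
    rw [hy]
    calc g * (g * x * g⁻¹) * g⁻¹ = (g * g) * x * (g * g)⁻¹ := by group
      _ = x := by rw [← h2.eq, mul_inv_cancel_right]
  let c : ℕ → Subgroup G := fun i => if i = 0 then Subgroup.zpowers x else
    if i = 1 then Subgroup.closure {x, y} else Subgroup.closure {x, g}
  have hxy : Subgroup.closure {x, y} ≤ Subgroup.closure {x, g} := by
    rw [Subgroup.closure_le]
    have hx : x ∈ Subgroup.closure {x, g} := Subgroup.subset_closure (by simp)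
    have hg : g ∈ Subgroup.closure {x, g} := Subgroup.subset_closure (by simp)
    rintro u (rfl | hu)
    · exact hx
    · rw [Set.mem_singleton_iff] at hu
      subst hu
      exact Subgroup.mul_mem _ (Subgroup.mul_mem _ hg hx) (Subgroup.inv_mem _ hg)
  have hx1 : x ∈ Subgroup.closure {x, y} := Subgroup.subset_closure (by simp)
  have hy1 : y ∈ Subgroup.closure {x, y} := Subgroup.subset_closure (by simp)
  have hle : Subgroup.zpowers x ≤ Subgroup.closure {x, y} := by
    rw [Subgroup.zpowers_le]; exact hx1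
  refine ⟨2, c, rfl, rfl, ?_⟩
  intro i hi
  have hi' : i = 0 ∨ i = 1 := by omega
  rcases hi' with rfl | rfl
  · change Subgroup.zpowers x ≤ Subgroup.closure {x, y} ∧
      ((Subgroup.zpowers x).subgroupOf (Subgroup.closure {x, y})).Normal
    refine ⟨hle, ?_⟩
    rw [Subgroup.normal_subgroupOf_iff_le_normalizer hle, Subgroup.closure_le]
    have hcz : ∀ u : G, Commute x u → u ∈ Subgroup.normalizer (Subgroup.zpowers x : Set G) := by
      intro u hu
      rw [Subgroup.mem_normalizer_iff]
      intro v
      constructor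
      · rintro ⟨a, ha⟩
        change x ^ a = v at ha
        rw [← ha, ← (hu.zpow_left a).eq, mul_inv_cancel_right]
        exact Subgroup.zpow_mem _ (Subgroup.mem_zpowers x) a
      · rintro ⟨a, ha⟩
        change x ^ a = _ at ha
        have : v = x ^ a := by
          have h3 : v = u⁻¹ * x ^ a * u := by rw [ha]; group
          rw [h3, mul_assoc, (hu.zpow_left a).eq, inv_mul_cancel_left]
        rw [this]
        exact Subgroup.zpow_mem _ (Subgroup.mem_zpowers x) a
    rintro u (rfl | hu)
    · exact hcz _ (Commute.refl _)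
    · rw [Set.mem_singleton_iff] at hu
      subst hu
      exact hcz _ h
  · change Subgroup.closure {x, y} ≤ Subgroup.closure {x, g} ∧
      ((Subgroup.closure {x, y}).subgroupOf (Subgroup.closure {x, g})).Normal
    refine ⟨hxy, ?_⟩
    rw [Subgroup.normal_subgroupOf_iff_le_normalizer hxy, Subgroup.closure_le]
    rintro u (rfl | hu)
    · exact Subgroup.le_normalizer hx1
    · rw [Set.mem_singleton_iff] at hu
      subst hu
      change u ∈ Subgroup.normalizer _
      have k1 : ∀ v ∈ Subgroup.closure {x, y}, u * v * u⁻¹ ∈ Subgroup.closure {x, y} := by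
        intro v hv
        have : Subgroup.closure {x, y} ≤
            (Subgroup.closure {x, y}).comap (MulAut.conj u).toMonoidHom := by
          rw [Subgroup.closure_le]
          rintro w (rfl | hw)
          · exact hy1
          · rw [Set.mem_singleton_iff] at hw
            subst hw
            change u * y * u⁻¹ ∈ Subgroup.closure {x, y}
            rw [hgy]; exact hx1
        exact this hv
      have hyx : u⁻¹ * x * u = y := by
        rw [← hgy]; group
      have hxy' : u⁻¹ * y * u = x := by rw [hy]; group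
      have k2 : ∀ v ∈ Subgroup.closure {x, y}, u⁻¹ * v * u ∈ Subgroup.closure {x, y} := by
        intro v hv
        have : Subgroup.closure {x, y} ≤
            (Subgroup.closure {x, y}).comap (MulAut.conj u⁻¹).toMonoidHom := by
          rw [Subgroup.closure_le]
          rintro w (rfl | hw)
          · change u⁻¹ * w * (u⁻¹)⁻¹ ∈ Subgroup.closure {w, y}
            rw [inv_inv, hyx]; exact hy1
          · rw [Set.mem_singleton_iff] at hw
            subst hw
            change u⁻¹ * y * (u⁻¹)⁻¹ ∈ Subgroup.closure {x, y}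
            rw [inv_inv, hxy']; exact hx1
        have h5 := this hv
        have h7 : u⁻¹ * v * (u⁻¹)⁻¹ ∈ Subgroup.closure {x, y} := h5
        rwa [inv_inv] at h7
      rw [Subgroup.mem_normalizer_iff]
      intro v
      constructor
      · exact k1 v
      · intro hv
        have := k2 _ hv
        have h6 : u⁻¹ * (u * v * u⁻¹) * u = v := by group
        rwa [h6] at this

/-- If the subnormalizer is the whole group, property (SS) is trivial. -/
theorem SS_of_top [Finite G] (p : ℕ) (y : G) (h : SubG y = ⊤) : SS p y := by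
  have : Fintype G := Fintype.ofFinite G
  have : Fintype (SubG y) := Fintype.ofFinite _
  let e : SubG y ≃* G := (MulEquiv.subgroupCongr h).trans Subgroup.topEquiv
  have he : e (self y) = y := rfl
  have he' : e.symm y = self y := by rw [MulEquiv.symm_apply_eq]; exact he.symm
  let f : IrrAt y ≃ IrrAt (self y) :=
    { toFun := fun χ => ⟨fun g => χ.1 (e g), irr_comp e χ.2.1, by
        change χ.1 (e (self y)) ≠ 0
        rw [he]; exact χ.2.2⟩
      invFun := fun ψ => ⟨fun g => ψ.1 (e.symm g), irr_comp e.symm ψ.2.1, by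
        change ψ.1 (e.symm y) ≠ 0
        rw [he']; exact ψ.2.2⟩
      left_inv := fun χ => Subtype.ext (funext fun g => by
        change χ.1 (e (e.symm g)) = χ.1 g
        rw [e.apply_symm_apply])
      right_inv := fun ψ => Subtype.ext (funext fun g => by
        change ψ.1 (e.symm (e g)) = ψ.1 g
        rw [e.symm_apply_apply]) }
  refine ⟨f, fun χ => ⟨?_, Or.inl ?_⟩⟩
  · intro n m hn hm
    have h1 : χ.1 (e 1) = m := hm
    rw [map_one, hn] at h1
    have : n = m := by exact_mod_cast h1
    rw [this]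
  · rfl

end Pool.Agent.X175.SubN
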