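import Pool.Agent.X175.SubN.A

set_option autoImplicit false
open CategoryTheory

namespace Pool.Agent.X175.SubN
open Pool.Agent.W367.SN

/-- the dihedral group of order twelve -/
abbrev D : Type := DihedralGroup 6

/-- the wreath product of the dihedral group of order twelve with a group of order two -/
abbrev W : Type := Wr D

/-- the element `(s, t)` -/
def xW : W := ⟨.sr 0, .r 2, false⟩
/-- its 2-part -/
def x2 : W := ⟨.sr 0, 1, false⟩
/-- its 3-part -/
def x3 : W := ⟨1, .r 2, false⟩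

theorem x_pow3 : xW ^ 3 = x2 := by decide +kernel
theorem x_pow4 : xW ^ 4 = x3 := by decide +kernel
theorem x_pow6 : xW ^ 6 = 1 := by decide +kernel

theorem order_x : orderOf xW = 6 := by
  rw [orderOf_eq_iff (by norm_num)]
  refine ⟨x_pow6, ?_⟩
  intro m hm h0
  interval_cases m <;> decide +kernel

theorem mem_zpowers_x {y : W} (h : y ∈ Subgroup.zpowers xW) : ∃ k < 6, y = xW ^ k := by
  rw [mem_zpowers_iff_mem_range_orderOf, order_x] at h
  simp only [Finset.mem_image, Finset.mem_range] at h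
  obtain ⟨k, hk, h⟩ := h
  exact ⟨k, hk, h.symm⟩

theorem order_dvd {y : W} (h : y ∈ Subgroup.zpowers xW) : orderOf y ∣ 6 := by
  obtain ⟨k, _, rfl⟩ := mem_zpowers_x h
  exact (orderOf_pow_dvd k).trans (dvd_of_eq order_x)

theorem ppart_two {y : W} (h : IsPPart 2 xW y) : y = x2 := by
  obtain ⟨hy, ⟨k, hk⟩, hc⟩ := h
  have h1 := order_dvd hy
  have hxy : xW * y⁻¹ ∈ Subgroup.zpowers xW :=
    Subgroup.mul_mem _ (Subgroup.mem_zpowers _) (Subgroup.inv_mem _ hy)
  have h2 := order_dvd hxy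
  have h3 : y ^ 2 = 1 := by
    rw [← orderOf_dvd_iff_pow_eq_one]
    rw [hk] at h1 ⊢
    have : (2 ^ k).Coprime 3 := Nat.Coprime.pow_left k (by norm_num)
    exact this.dvd_of_dvd_mul_right (show 2 ^ k ∣ 2 * 3 from h1)
  have h4 : (xW * y⁻¹) ^ 3 = 1 := by
    rw [← orderOf_dvd_iff_pow_eq_one]
    exact hc.dvd_of_dvd_mul_right (show _ ∣ 3 * 2 from h2)
  obtain ⟨j, hj, rfl⟩ := mem_zpowers_x hy
  have key : ∀ j ∈ Finset.range 6, (xW ^ j) ^ 2 = 1 → (xW * (xW ^ j)⁻¹) ^ 3 = 1 →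
      xW ^ j = x2 := by decide +kernel
  exact key j (Finset.mem_range.2 hj) h3 h4

theorem ppart_three {y : W} (h : IsPPart 3 xW y) : y = x3 := by
  obtain ⟨hy, ⟨k, hk⟩, hc⟩ := h
  have h1 := order_dvd hy
  have hxy : xW * y⁻¹ ∈ Subgroup.zpowers xW :=
    Subgroup.mul_mem _ (Subgroup.mem_zpowers _) (Subgroup.inv_mem _ hy)
  have h2 := order_dvd hxy
  have h3 : y ^ 3 = 1 := by
    rw [← orderOf_dvd_iff_pow_eq_one]
    rw [hk] at h1 ⊢
    have : (3 ^ k).Coprime 2 := Nat.Coprime.pow_left k (by norm_num)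
    exact this.dvd_of_dvd_mul_right (show 3 ^ k ∣ 3 * 2 from h1)
  have h4 : (xW * y⁻¹) ^ 2 = 1 := by
    rw [← orderOf_dvd_iff_pow_eq_one]
    exact hc.dvd_of_dvd_mul_right (show _ ∣ 2 * 3 from h2)
  obtain ⟨j, hj, rfl⟩ := mem_zpowers_x hy
  have key : ∀ j ∈ Finset.range 6, (xW ^ j) ^ 3 = 1 → (xW * (xW ^ j)⁻¹) ^ 2 = 1 →
      xW ^ j = x3 := by decide +kernel
  exact key j (Finset.mem_range.2 hj) h3 h4

/-! ### the subnormalizers of the two parts -/

theorem swap_mem (x : W) (h : Commute x (⟨1, 1, true⟩ * x * (⟨1, 1, true⟩ : W)⁻¹)) :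
    (⟨1, 1, true⟩ : W) ∈ SubG x := by
  apply Subgroup.subset_closure
  apply mem_SSet_of_swap h
  change x * (⟨1, 1, true⟩ * ⟨1, 1, true⟩) = (⟨1, 1, true⟩ * ⟨1, 1, true⟩) * x
  have : (⟨1, 1, true⟩ * ⟨1, 1, true⟩ : W) = 1 := by decide +kernel
  rw [this, mul_one, one_mul]

theorem sub_top_of {x : W} (hsw : (⟨1, 1, true⟩ : W) ∈ SubG x)
    (hb : (∀ b : D, (⟨1, b, false⟩ : W) ∈ SubG x) ∨ (∀ a : D, (⟨a, 1, false⟩ : W) ∈ SubG x)) :
    SubG x = ⊤ := by
  have hA : ∀ a : D, (⟨a, 1, false⟩ : W) ∈ SubG x := by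
    rcases hb with hb | hb
    · intro a
      have h1 := Subgroup.mul_mem _ (Subgroup.mul_mem _ hsw (hb a)) hsw
      have h2 : (⟨1, 1, true⟩ * ⟨1, a, false⟩ * ⟨1, 1, true⟩ : W) = ⟨a, 1, false⟩ := by
        simp
      rwa [h2] at h1
    · exact hb
  have hB : ∀ b : D, (⟨1, b, false⟩ : W) ∈ SubG x := by
    intro b
    have h1 := Subgroup.mul_mem _ (Subgroup.mul_mem _ hsw (hA b)) hsw
    have h2 : (⟨1, 1, true⟩ * ⟨b, 1, false⟩ * ⟨1, 1, true⟩ : W) = ⟨1, b, false⟩ := by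
      simp
    rwa [h2] at h1
  rw [eq_top_iff]
  rintro ⟨a, b, e⟩ _
  have h1 := Subgroup.mul_mem _ (hA a) (hB b)
  have h2 : (⟨a, 1, false⟩ * ⟨1, b, false⟩ : W) = ⟨a, b, false⟩ := by simp
  rw [h2] at h1
  cases e
  · exact h1
  · have h3 := Subgroup.mul_mem _ h1 hsw
    have h4 : (⟨a, b, false⟩ * ⟨1, 1, true⟩ : W) = ⟨a, b, true⟩ := by simp
    rwa [h4] at h3

theorem sub_x2 : SubG x2 = ⊤ := by
  apply sub_top_of
  · apply swap_mem
    change x2 * _ = _ * x2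
    decide +kernel
  · left
    intro b
    apply Subgroup.subset_closure
    apply mem_SSet_of_commute
    change (⟨.sr 0, 1, false⟩ : W) * ⟨1, b, false⟩ = ⟨1, b, false⟩ * ⟨.sr 0, 1, false⟩
    rw [Wr.mul_ff, Wr.mul_ff, one_mul, mul_one, mul_one, one_mul]

theorem sub_x3 : SubG x3 = ⊤ := by
  apply sub_top_of
  · apply swap_mem
    change x3 * _ = _ * x3
    decide +kernel
  · right
    intro b
    apply Subgroup.subset_closure
    apply mem_SSet_of_commute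
    change (⟨1, .r 2, false⟩ : W) * ⟨b, 1, false⟩ = ⟨b, 1, false⟩ * ⟨1, .r 2, false⟩
    rw [Wr.mul_ff, Wr.mul_ff, one_mul, mul_one, mul_one, one_mul]

theorem hyp : ∀ p : ℕ, p.Prime → p ∣ orderOf xW → ∀ y, IsPPart p xW y → SS p y := by
  intro p hp hd y hy
  rw [order_x] at hd
  have h1 : p = 2 ∨ p = 3 := by
    have : p ∣ 2 * 3 := hd
    rcases (Nat.Prime.dvd_mul hp).1 this with h | h
    · exact Or.inl ((Nat.prime_dvd_prime_iff_eq hp Nat.prime_two).1 h)
    · exact Or.inr ((Nat.prime_dvd_prime_iff_eq hp Nat.prime_three).1 h)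
  rcases h1 with rfl | rfl
  · rw [ppart_two hy]; exact SS_of_top 2 _ sub_x2
  · rw [ppart_three hy]; exact SS_of_top 3 _ sub_x3

/-! ### the subnormalizer of `x` -/

/-- the subgroup `⟨s, z⟩ × D` of the base group -/
def H0 : Subgroup W where
  carrier := {w | w.e = false ∧ w.a ∈ ([1, .r 3, .sr 0, .sr 3] : List D)}
  one_mem' := ⟨rfl, by decide⟩
  mul_mem' := by
    rintro ⟨a, b, e⟩ ⟨a', b', e'⟩ ⟨h1, h2⟩ ⟨h1', h2'⟩
    change e = false at h1
    change e' = false at h1'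
    subst h1 h1'
    refine ⟨rfl, ?_⟩
    have key : ∀ a ∈ ([1, .r 3, .sr 0, .sr 3] : List D), ∀ a' ∈ ([1, .r 3, .sr 0, .sr 3] : List D),
        a * a' ∈ ([1, .r 3, .sr 0, .sr 3] : List D) := by decide +kernel
    exact key a h2 a' h2'
  inv_mem' := by
    rintro ⟨a, b, e⟩ ⟨h1, h2⟩
    change e = false at h1
    subst h1
    refine ⟨rfl, ?_⟩
    have key : ∀ a ∈ ([1, .r 3, .sr 0, .sr 3] : List D),
        a⁻¹ ∈ ([1, .r 3, .sr 0, .sr 3] : List D) := by decide +kernel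
    exact key a h2

theorem mem_H0 (w : W) : w ∈ H0 ↔ w.e = false ∧ w.a ∈ ([1, .r 3, .sr 0, .sr 3] : List D) :=
  Iff.rfl

instance : DecidablePred (· ∈ H0) := fun w => decidable_of_iff' _ (mem_H0 w)

theorem card_W : Fintype.card W = 288 := by
  rw [Wr.card_eq]
  rfl

theorem two_elt {w : W} (h : ∃ n : ℕ, w ^ 2 ^ n = 1) : w ^ 32 = 1 := by
  obtain ⟨n, hn⟩ := h
  rw [← orderOf_dvd_iff_pow_eq_one] at hn ⊢
  have h1 : orderOf w ∣ 32 * 9 := by
    have := orderOf_dvd_card (x := w)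
    rwa [card_W] at this
  have h2 : (orderOf w).Coprime 9 :=
    Nat.Coprime.coprime_dvd_left hn (Nat.Coprime.pow_left n (by norm_num))
  exact h2.dvd_of_dvd_mul_right h1

set_option maxRecDepth 100000 in
theorem dec_sub : ∀ g : W,
    (x2 * (g * x2 * g⁻¹)) ^ 32 = 1 →
    (x2 * (g * x3 * g⁻¹) * x2⁻¹ = (g * x3 * g⁻¹)⁻¹ → (g * x3 * g⁻¹) ^ 32 = 1) → g ∈ H0 := by
  decide +kernel

theorem x2_mem : x2 ∈ Subgroup.zpowers xW := by
  rw [← x_pow3]; exact Subgroup.pow_mem _ (Subgroup.mem_zpowers _) 3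

theorem x3_mem : x3 ∈ Subgroup.zpowers xW := by
  rw [← x_pow4]; exact Subgroup.pow_mem _ (Subgroup.mem_zpowers _) 4

theorem x2_sq : x2⁻¹ = x2 := by decide +kernel

theorem SSet_sub (g : W) (hg : g ∈ SSet xW) : g ∈ H0 := by
  have hg' : IsSubnormal (Subgroup.zpowers xW) (Subgroup.closure {xW, g}) := hg
  have hx : Subgroup.zpowers xW ≤ Subgroup.closure {xW, g} := by
    rw [Subgroup.zpowers_le]; exact Subgroup.subset_closure (by simp)
  have hgm : g ∈ Subgroup.closure {xW, g} := Subgroup.subset_closure (by simp)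
  apply dec_sub g
  · apply two_elt
    apply inverted hg' x2_mem
    · exact Subgroup.mul_mem _ (hx x2_mem) (Subgroup.mul_mem _ (Subgroup.mul_mem _ hgm (hx x2_mem))
        (Subgroup.inv_mem _ hgm))
    · rw [_root_.mul_inv_rev, _root_.mul_inv_rev, _root_.mul_inv_rev, inv_inv, x2_sq]
      have h1 : x2 * x2 = 1 := by decide +kernel
      rw [← mul_assoc, h1, one_mul, mul_assoc]
      simp only [mul_assoc]
  · intro h
    apply two_elt
    apply inverted hg' x2_mem _ h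
    exact Subgroup.mul_mem _ (Subgroup.mul_mem _ hgm (hx x3_mem)) (Subgroup.inv_mem _ hgm)

set_option maxRecDepth 100000 in
theorem dec_conj : ∀ g : W, g ∈ H0 → (g * xW * g⁻¹ = xW ∨ g * xW * g⁻¹ = xW ^ 5) ∧
    (g⁻¹ * xW * g = xW ∨ g⁻¹ * xW * g = xW ^ 5) := by
  decide +kernel

theorem sub_eq : SubG xW = H0 := by
  apply le_antisymm
  · rw [SubG, Subgroup.closure_le]
    exact fun g hg => SSet_sub g hg
  · intro g hg
    apply Subgroup.subset_closure
    obtain ⟨h1, h2⟩ := dec_conj g hg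
    apply mem_SSet_of_conj
    · rcases h1 with h | h <;> rw [h]
      · exact Subgroup.mem_zpowers _
      · exact Subgroup.pow_mem _ (Subgroup.mem_zpowers _) 5
    · rcases h2 with h | h <;> rw [h]
      · exact Subgroup.mem_zpowers _
      · exact Subgroup.pow_mem _ (Subgroup.mem_zpowers _) 5

end Pool.Agent.X175.SubN
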