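import Pool.Agent.X175.SubN.B

set_option autoImplicit false
open CategoryTheory

namespace Pool.Agent.X175.SubN
open Pool.Agent.W367.SN

/-! ### the characters of `H0` at `x` -/

theorem x_memH0 : xW ∈ H0 := by decide +kernel

/-- `x` in `H0` -/
def xH : H0 := ⟨xW, x_memH0⟩

theorem card_H0 : Fintype.card H0 = 48 := by decide +kernel

set_option maxRecDepth 100000 in
/-- every element of `H0` is an involution (or trivial), or `z x^{±1}` with `z` central of order
at most two -/
theorem dec_H0 : ∀ h : H0, h * h = 1 ∨ ∃ z : H0, z * z = 1 ∧ (∀ u : H0, z * u = u * z) ∧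
    (h = z * xH ∨ h = z * xH⁻¹) := by
  decide +kernel

theorem dec_inv : ∃ u : H0, u * xH * u⁻¹ = xH⁻¹ := by decide +kernel

theorem dec_sum : (∑ h : H0, if h * h = 1 then 0 else 4 : ℕ) = 64 := by decide +kernel

theorem val_H0 {ψ : H0 → ℂ} (hψ : ψ ∈ IrrC H0) : ψ xH * ψ xH ≠ 4 := by
  intro h4
  have hnorm := irr_norm hψ
  obtain ⟨n, hn, ρ, hρ, hsc⟩ := exists_matrix hψ
  have hcl := fun g u => irr_class hψ g u
  have hxi : ψ xH⁻¹ = ψ xH := by
    obtain ⟨u, hu⟩ := dec_inv
    rw [← hu, hcl]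
  have key : ∀ h : H0, ∃ r : ℝ, ψ h * ψ h⁻¹ = (r : ℂ) ∧
      (((if h * h = 1 then 0 else 4 : ℕ) : ℝ)) ≤ r := by
    intro h
    by_cases hh : h * h = 1
    · have hinv : h⁻¹ = h := inv_eq_of_mul_eq_one_left hh
      rw [if_pos hh, hinv]
      obtain ⟨k, hk⟩ := trace_idem ((1 / 2 : ℂ) • (1 + ρ h)) (by
        rw [smul_mul_smul_comm, mul_add, add_mul, add_mul, one_mul, one_mul, mul_one, ← map_mul,
          hh, map_one]
        have : (1 + ρ h + (ρ h + 1) : Matrix (Fin n) (Fin n) ℂ) = (2 : ℂ) • (1 + ρ h) := by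
          rw [two_smul]; abel
        rw [this, smul_smul]
        norm_num)
      rw [Matrix.trace_smul, Matrix.trace_add, Matrix.trace_one, ← hρ, Fintype.card_fin,
        smul_eq_mul] at hk
      have hval : ψ h = (((2 * k - n : ℝ)) : ℂ) := by
        push_cast
        linear_combination 2 * hk
      refine ⟨(2 * k - n : ℝ) * (2 * k - n : ℝ), ?_, ?_⟩
      · rw [hval]; push_cast; ring
      · push_cast; exact mul_self_nonneg _
    · rw [if_neg hh]
      rcases dec_H0 h with h1 | ⟨z, hz, hzc, hzh⟩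
      · exact absurd h1 hh
      obtain ⟨c, hc⟩ := hsc (ρ z) (fun g => by rw [← map_mul, ← map_mul, hzc g])
      have hval : ∀ g, ψ (z * g) = c * ψ g := by
        intro g
        rw [hρ, hρ, map_mul, hc, smul_mul_assoc, one_mul, Matrix.trace_smul, smul_eq_mul]
      have hc2 : c * c = 1 := by
        have h1 : ρ z * ρ z = 1 := by rw [← map_mul, hz, map_one]
        rw [hc, smul_mul_smul_comm, one_mul] at h1
        have h2 := congrArg Matrix.trace h1
        rw [Matrix.trace_smul, Matrix.trace_one, Fintype.card_fin, smul_eq_mul] at h2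
        have hn0 : (n : ℂ) ≠ 0 := by exact_mod_cast hn.ne'
        exact mul_right_cancel₀ hn0 (by rw [h2, one_mul])
      have hzi : z⁻¹ = z := inv_eq_of_mul_eq_one_left hz
      refine ⟨4, ?_, by norm_num⟩
      rcases hzh with rfl | rfl
      · have e : (z * xH)⁻¹ = z * xH⁻¹ := by
          rw [_root_.mul_inv_rev, hzi, hzc]
        rw [e, hval, hval, hxi]
        push_cast
        linear_combination (c * c) * h4 + 4 * hc2
      · have e : (z * xH⁻¹)⁻¹ = z * xH := by
          rw [_root_.mul_inv_rev, inv_inv, hzi, hzc]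
        rw [e, hval, hval, hxi]
        push_cast
        linear_combination (c * c) * h4 + 4 * hc2
  choose r hr1 hr2 using key
  have h1 : ((∑ h, r h : ℝ) : ℂ) = ((48 : ℝ) : ℂ) := by
    push_cast
    rw [← Finset.sum_congr rfl (fun h _ => hr1 h), hnorm, card_H0]
    norm_num
  have h2 : ∑ h, r h = 48 := by exact_mod_cast h1
  have h3 : (((∑ h : H0, if h * h = 1 then 0 else 4 : ℕ) : ℕ) : ℝ) ≤ ∑ h, r h := by
    push_cast
    apply Finset.sum_le_sum
    intro h _
    have := hr2 h
    push_cast at this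
    exact this
  rw [dec_sum, h2] at h3
  norm_num at h3

theorem val_sub (C : Subgroup W) (hC : C = H0) (y : C) (hy : (y : W) = xW)
    (ψ : C → ℂ) (hψ : ψ ∈ IrrC C) : ψ y * ψ y ≠ 4 := by
  subst hC
  have : y = xH := Subtype.ext hy
  rw [this]
  exact val_H0 hψ

/-! ### a character of degree two of `W` with `x` in its kernel -/

/-- the sign character of `D` with kernel `⟨r², s⟩` -/
def sg : D → ℤ
  | .r i => if i.val % 2 = 0 then 1 else -1
  | .sr i => if i.val % 2 = 0 then 1 else -1

theorem sg_mul : ∀ a b : D, sg (a * b) = sg a * sg b := by decide +kernel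
theorem sg_one : sg 1 = 1 := by decide +kernel
theorem sg_sum : ∑ a : D, sg a * sg a⁻¹ = 12 := by decide +kernel
theorem card_D : Fintype.card D = 12 := rfl

/-- the sign character as a matrix representation -/
noncomputable def sgRep : D →* Matrix (Fin 1) (Fin 1) ℂ where
  toFun a := ((sg a : ℤ) : ℂ) • 1
  map_one' := by rw [sg_one]; simp
  map_mul' a b := by
    rw [sg_mul, smul_mul_smul_comm, one_mul]
    push_cast
    rfl

theorem sgRep_trace (a : D) : (sgRep a).trace = ((sg a : ℤ) : ℂ) := by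
  change ((((sg a : ℤ) : ℂ)) • (1 : Matrix (Fin 1) (Fin 1) ℂ)).trace = _
  rw [Matrix.trace_smul, Matrix.trace_one]
  simp

theorem sg_mem : (fun a : D => ((sg a : ℤ) : ℂ)) ∈ IrrC D := by
  have h := mem_irr_of_matrix sgRep (by
    simp only [sgRep_trace]
    rw [card_D]
    exact_mod_cast sg_sum)
  have h2 : (fun g : D => (sgRep g).trace) = fun a : D => ((sg a : ℤ) : ℂ) := funext sgRep_trace
  rwa [h2] at h

theorem triv_mem : (fun _ : D => (1 : ℂ)) ∈ IrrC D := triv_odd.1

/-- the character of degree two -/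
noncomputable def chi : W → ℂ := ind (fun _ => 1) (fun a => ((sg a : ℤ) : ℂ))

theorem chi_mem : chi ∈ IrrC W := by
  apply ind_mem triv_mem sg_mem
  intro h
  have := congrFun h (.r 1)
  have h1 : sg (.r 1) = -1 := by decide +kernel
  rw [h1] at this
  norm_num at this

theorem chi_x : chi xW = 2 := by
  change (1 : ℂ) * ((sg (.r 2) : ℤ) : ℂ) + ((sg (.sr 0) : ℤ) : ℂ) * 1 = 2
  have h1 : sg (.r 2) = 1 := by decide +kernel
  have h2 : sg (.sr 0) = 1 := by decide +kernel
  rw [h1, h2]
  norm_num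

theorem main : ∀ f : IrrAt xW ≃ IrrAt (self xW), ¬ ∀ χ : IrrAt xW,
    (χ.1 xW = (f χ).1 (self xW) ∨ χ.1 xW = - (f χ).1 (self xW)) := by
  intro f hf
  let χ : IrrAt xW := ⟨chi, chi_mem, by rw [chi_x]; norm_num⟩
  have h1 : (f χ).1 (self xW) * (f χ).1 (self xW) ≠ 4 :=
    val_sub (SubG xW) sub_eq (self xW) rfl (f χ).1 (f χ).2.1
  apply h1
  have h2 : χ.1 xW = 2 := chi_x
  rcases hf χ with h | h
  · rw [← h, h2]; norm_num
  · have h3 : (f χ).1 (self xW) = -2 := by rw [← h2, h, neg_neg]
    rw [h3]; norm_num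

end Pool.Agent.X175.SubN
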