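import Pool.Agent.X175.SubN.C

set_option autoImplicit false
open CategoryTheory

namespace Pool.Agent.X175.SubN
open Pool.Agent.W367.SN

theorem isPPart_two : IsPPart 2 xW x2 := by
  refine ⟨x2_mem, ⟨1, ?_⟩, ?_⟩
  · rw [orderOf_eq_prime (p := 2) (by decide +kernel) (by decide +kernel), pow_one]
  · have h : xW * x2⁻¹ = x3 := by decide +kernel
    rw [h, orderOf_eq_prime (p := 3) (by decide +kernel) (by decide +kernel)]
    norm_num

theorem isPPart_three : IsPPart 3 xW x3 := by
  refine ⟨x3_mem, ⟨1, ?_⟩, ?_⟩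
  · rw [orderOf_eq_prime (p := 3) (by decide +kernel) (by decide +kernel), pow_one]
  · have h : xW * x3⁻¹ = x2 := by decide +kernel
    rw [h, orderOf_eq_prime (p := 2) (by decide +kernel) (by decide +kernel)]
    norm_num

theorem exists_ppart {p : ℕ} (hp : p.Prime) (hd : p ∣ orderOf xW) : ∃ y, IsPPart p xW y := by
  rw [order_x] at hd
  have h1 : p = 2 ∨ p = 3 := by
    have : p ∣ 2 * 3 := hd
    rcases (Nat.Prime.dvd_mul hp).1 this with h | h
    · exact Or.inl ((Nat.prime_dvd_prime_iff_eq hp Nat.prime_two).1 h)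
    · exact Or.inr ((Nat.prime_dvd_prime_iff_eq hp Nat.prime_three).1 h)
  rcases h1 with rfl | rfl
  · exact ⟨_, isPPart_two⟩
  · exact ⟨_, isPPart_three⟩

end Pool.Agent.X175.SubN
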