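import Mathlib

set_option autoImplicit false
open CategoryTheory

/-! # Subnormalizers and character values: the definitions -/

namespace Pool.Agent.X175.SubN

variable {G : Type} [Group G]

/-- `H` is subnormal in `K`: there is a finite chain of subgroups from `H` to `K`, each normal in
the next one. -/
def IsSubnormal (H K : Subgroup G) : Prop :=
  ∃ n : ℕ, ∃ c : ℕ → Subgroup G, c 0 = H ∧ c n = K ∧
    ∀ i < n, c i ≤ c (i + 1) ∧ ((c i).subgroupOf (c (i + 1))).Normal

/-- The subnormalizer set `S_G(x)`: all `g` such that `⟨x⟩` is subnormal in `⟨x, g⟩`. -/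
def SSet (x : G) : Set G :=
  {g | IsSubnormal (Subgroup.zpowers x) (Subgroup.closure {x, g})}

/-- The subnormalizer subgroup `Sub_G(x) = ⟨S_G(x)⟩`. -/
def SubG (x : G) : Subgroup G := Subgroup.closure (SSet x)

theorem mem_SubG (x : G) : x ∈ SubG x := by
  refine Subgroup.subset_closure ⟨0, fun _ => Subgroup.zpowers x, rfl, ?_, fun i hi => by omega⟩
  rw [Set.pair_eq_singleton, ← Subgroup.zpowers_eq_closure]

/-- `x` as an element of `Sub_G(x)`. -/
def self (x : G) : SubG x := ⟨x, mem_SubG x⟩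

/-- `Irr(G)`: the complex irreducible characters of `G`. -/
def IrrChar (G : Type) [Group G] : Set (G → ℂ) :=
  {χ | ∃ V : FDRep ℂ G, Simple V ∧ V.character = χ}

/-- `Irr^x(G)`: the irreducible characters not vanishing at `x`. -/
def IrrAt (x : G) : Type := {χ : G → ℂ // χ ∈ IrrChar G ∧ χ x ≠ 0}

/-- The `p`-parts of the degrees of two characters coincide. -/
def SameDeg (p : ℕ) {H : Type} [Group H] (χ : G → ℂ) (ψ : H → ℂ) : Prop :=
  ∀ n m : ℕ, χ 1 = n → ψ 1 = m → ordProj[p] n = ordProj[p] m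

/-- Property (SS) for `(G, y)` and the prime `p`: there is a bijection from `Irr^y(G)` to
`Irr^y(Sub_G(y))` preserving the `p`-parts of the degrees and the values at `y` up to sign. -/
def SS (p : ℕ) (y : G) : Prop :=
  ∃ g : IrrAt y ≃ IrrAt (self y), ∀ χ : IrrAt y, SameDeg p χ.1 (g χ).1 ∧
    ((g χ).1 (self y) = χ.1 y ∨ (g χ).1 (self y) = - χ.1 y)

/-- `y` is the `p`-part of `x`: the power of `x` of `p`-power order such that `x y⁻¹` has order
prime to `p`. -/
def IsPPart (p : ℕ) (x y : G) : Prop :=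
  y ∈ Subgroup.zpowers x ∧ (∃ k : ℕ, orderOf y = p ^ k) ∧ (orderOf (x * y⁻¹)).Coprime p

end Pool.Agent.X175.SubN
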